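import Mathlib
import Pool.Agent.H18.Dir.Main

set_option autoImplicit false

namespace Pool.Agent.Results.MP_ec4324_co.Gap

open Finset Pool.Agent.H18.Dir

/-- `S` is equidistributed in the direction `v`: all cosets `x + v` meet `S` in the same number
of points. -/
def Equi {p : ℕ} (S : Set (ZMod p × ZMod p)) (v : Submodule (ZMod p) (ZMod p × ZMod p)) : Prop :=
  ∀ x y : ZMod p × ZMod p, {s ∈ S | s - x ∈ v}.ncard = {s ∈ S | s - y ∈ v}.ncard

/-- The number of directions (one-dimensional subspaces) in which `S` is equidistributed. -/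
noncomputable def nEqui {p : ℕ} (S : Set (ZMod p × ZMod p)) : ℕ :=
  {v : Submodule (ZMod p) (ZMod p × ZMod p) | Module.finrank (ZMod p) v = 1 ∧ Equi S v}.ncard

section aux
variable {p : ℕ} [Fact p.Prime]

def vec (d : Option (ZMod p)) : ZMod p × ZMod p := d.elim (0, 1) (fun m => (1, m))

def dir (d : Option (ZMod p)) : Submodule (ZMod p) (ZMod p × ZMod p) :=
  Submodule.span (ZMod p) {vec d}

lemma vec_ne (d : Option (ZMod p)) : vec d ≠ 0 := by
  cases d <;> simp [vec, Prod.ext_iff]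

lemma mem_dir (d : Option (ZMod p)) (q : ZMod p × ZMod p) : q ∈ dir d ↔ lf d q = 0 := by
  unfold dir
  rw [Submodule.mem_span_singleton]
  cases d with
  | none =>
    simp only [vec, lf, Option.elim]
    constructor
    · rintro ⟨a, rfl⟩; simp
    · intro h; exact ⟨q.2, by ext <;> simp [h]⟩
  | some m =>
    simp only [vec, lf, Option.elim]
    constructor
    · rintro ⟨a, rfl⟩; simp [mul_comm]
    · intro h
      refine ⟨q.1, ?_⟩
      ext
      · simp
      · simp only [Prod.smul_mk, smul_eq_mul]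
        linear_combination -h

lemma rank_dir (d : Option (ZMod p)) : Module.finrank (ZMod p) (dir d) = 1 :=
  finrank_span_singleton (vec_ne d)

lemma dir_inj : Function.Injective (dir (p := p)) := by
  intro d e h
  have h1 : vec d ∈ dir e := h ▸ Submodule.mem_span_singleton_self _
  rw [mem_dir] at h1
  cases d <;> cases e <;> simp_all [vec, lf, sub_eq_zero]

lemma dir_surj (v : Submodule (ZMod p) (ZMod p × ZMod p)) (hv : Module.finrank (ZMod p) v = 1) :
    ∃ d, dir d = v := by
  obtain ⟨w, hw0, hw⟩ := finrank_eq_one_iff'.1 hv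
  have key : ∀ d, lf d (w : ZMod p × ZMod p) = 0 → dir d = v := by
    intro d hd
    symm
    apply Submodule.eq_of_le_of_finrank_eq
    · intro x hx
      obtain ⟨c, hc⟩ := hw ⟨x, hx⟩
      have : x = c • (w : ZMod p × ZMod p) := (congrArg Subtype.val hc).symm
      rw [this]
      exact Submodule.smul_mem _ _ ((mem_dir d _).2 hd)
    · rw [hv, rank_dir]
  by_cases h1 : (w : ZMod p × ZMod p).1 = 0
  · exact ⟨none, key none (by simpa [lf] using h1)⟩
  · refine ⟨some ((w : ZMod p × ZMod p).2 / (w : ZMod p × ZMod p).1), key _ ?_⟩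
    simp only [lf, Option.elim]
    field_simp
    ring

lemma ncard_line (S : Finset (ZMod p × ZMod p)) (d : Option (ZMod p)) (x : ZMod p × ZMod p) :
    {s ∈ (S : Set (ZMod p × ZMod p)) | s - x ∈ dir d}.ncard = pr S d (lf d x) := by
  unfold pr
  rw [← Set.ncard_coe_finset]
  congr 1
  ext s
  simp [mem_dir, lf_sub, sub_eq_zero]

lemma equi_iff (S : Finset (ZMod p × ZMod p)) (d : Option (ZMod p)) :
    Equi (S : Set (ZMod p × ZMod p)) (dir d) ↔ ∀ b, pr S d b * p = S.card := by
  have hp : 0 < p := (Fact.out : p.Prime).pos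
  constructor
  · intro h b
    have hb : ∀ c, pr S d c = pr S d b := by
      intro c
      obtain ⟨x, rfl⟩ := lf_surj d c
      obtain ⟨y, rfl⟩ := lf_surj d b
      rw [← ncard_line, ← ncard_line]; exact h x y
    rw [← sum_pr S d, Finset.sum_congr rfl (fun c _ => hb c)]
    simp [mul_comm]
  · intro h x y
    rw [ncard_line, ncard_line]
    exact Nat.eq_of_mul_eq_mul_right hp ((h _).trans (h _).symm)

lemma nEqui_eq (S : Finset (ZMod p × ZMod p)) :
    nEqui (S : Set (ZMod p × ZMod p)) =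
      (univ.filter fun d : Option (ZMod p) => ∀ b, pr S d b * p = S.card).card := by
  unfold nEqui
  rw [← Set.ncard_coe_finset, ← Set.ncard_image_of_injective _ dir_inj]
  congr 1
  ext v
  simp only [Set.mem_setOf_eq, Set.mem_image, Finset.coe_filter, Finset.mem_univ, true_and]
  constructor
  · rintro ⟨h1, h2⟩
    obtain ⟨d, rfl⟩ := dir_surj v h1
    exact ⟨d, (equi_iff S d).1 h2, rfl⟩
  · rintro ⟨d, hd, rfl⟩
    exact ⟨rank_dir d, (equi_iff S d).2 hd⟩

end aux

lemma part1 (k : ℕ) (hk : 4 ≤ k) : ∃ p₀ : ℕ, ∀ p : ℕ, p.Prime → p₀ < p →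
    ∀ S : Set (ZMod p × ZMod p), nEqui S + k ≠ p + 1 := by
  classical
  obtain ⟨p₀, h⟩ := main k hk
  refine ⟨max p₀ k, fun p hp hlt S hS => ?_⟩
  haveI : Fact p.Prime := ⟨hp⟩
  have h1 : p₀ < p := lt_of_le_of_lt (le_max_left _ _) hlt
  have h2 : k < p := lt_of_le_of_lt (le_max_right _ _) hlt
  obtain ⟨T, rfl⟩ : ∃ T : Finset (ZMod p × ZMod p), (T : Set _) = S :=
    ⟨(Set.toFinite S).toFinset, Set.Finite.coe_toFinset _⟩
  rw [nEqui_eq] at hS
  have hpos : 0 < (univ.filter fun d : Option (ZMod p) => ∀ b, pr T d b * p = T.card).card := by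
    omega
  obtain ⟨d, hd⟩ := Finset.card_pos.1 hpos
  have hdiv : p ∣ T.card := ⟨pr T d 0, by rw [← (Finset.mem_filter.1 hd).2 0, mul_comm]⟩
  apply h p h1 T hdiv
  have hsum := Finset.card_filter_add_card_filter_not (s := (univ : Finset (Option (ZMod p))))
    (fun d : Option (ZMod p) => ∀ b, pr T d b * p = T.card)
  have hc : (univ : Finset (Option (ZMod p))).card = p + 1 := by simp
  have he : (univ.filter fun d : Option (ZMod p) => ¬ ∀ b, pr T d b * p = T.card) =
      (univ.filter fun d : Option (ZMod p) => ∃ b, pr T d b * p ≠ T.card) := by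
    ext d; simp
  rw [he, hc] at hsum
  omega

theorem result :
    (∀ k : ℕ, 4 ≤ k → ∃ p₀ : ℕ, ∀ p : ℕ, p.Prime → p₀ < p →
      ∀ S : Set (ZMod p × ZMod p), nEqui S + k ≠ p + 1) ∧
    ¬ (∀ p : ℕ, p.Prime → ∀ d : ℕ, d + 2 ≤ p → ∃ S : Set (ZMod p × ZMod p), nEqui S = d) := by
  refine ⟨part1, fun h => ?_⟩
  obtain ⟨p₀, h0⟩ := part1 4 le_rfl
  obtain ⟨p, hle, hp⟩ := Nat.exists_infinite_primes (p₀ + 5)
  obtain ⟨S, hS⟩ := h p hp (p - 3) (by omega)
  exact h0 p hp (by omega) S (by omega)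

end Pool.Agent.Results.MP_ec4324_co.Gap
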